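import Mathlib
import Pool.Agent.R246.MomentA
import Pool.Agent.R246.MomentB
import Pool.Agent.R246.MomentC

/-!
# Sharp `L² → L^{2d}` extension inequality for the moment curve over a finite field
-/

namespace Pool.Agent.Results.MP_110370_an.SharpMomentCurve

open Finset Pool.Agent.R246.MomentA Pool.Agent.R246.MomentB Pool.Agent.R246.MomentC

noncomputable section

/-- The character `e(y) = exp(2 π i Tr(y) / p)` of the finite field `F` of characteristic `p`. -/
def ee (p : ℕ) [Fact p.Prime] {F : Type*} [Field F] [Algebra (ZMod p) F] (y : F) : ℂ :=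
  Complex.exp (2 * Real.pi * Complex.I * ((Algebra.trace (ZMod p) F y).val : ℂ) / p)

/-- The extension operator of the moment curve,
`(f σ)^∨ (x) = q⁻¹ ∑_t f(t) e(x₁ t + x₂ t² + … + x_d t^d)`; functions on the curve
`{(t, t², …, t^d)}` are written as functions of the parameter `t`. -/
def extn (p : ℕ) [Fact p.Prime] {F : Type*} [Field F] [Fintype F] [Algebra (ZMod p) F] {d : ℕ}
    (f : F → ℂ) (x : Fin d → F) : ℂ :=
  1 / (Fintype.card F : ℂ) * ∑ t, f t * ee p (∑ i : Fin d, x i * t ^ ((i : ℕ) + 1))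

/-- `‖(f σ)^∨‖_{L^{2d}}` (counting measure on `F^d`) -/
def normExt (p : ℕ) [Fact p.Prime] {F : Type*} [Field F] [Fintype F] [Algebra (ZMod p) F] (d : ℕ)
    (f : F → ℂ) : ℝ :=
  (∑ x : Fin d → F, ‖extn p f x‖ ^ (2 * d)) ^ (1 / (2 * d) : ℝ)

/-- `‖f‖_{L²(σ)}` (normalised counting measure) -/
def normL2 {F : Type*} [Fintype F] (f : F → ℂ) : ℝ :=
  (1 / (Fintype.card F : ℝ) * ∑ t, ‖f t‖ ^ 2) ^ (1 / 2 : ℝ)

/-- The constant `C_{d,q}`. Here `Pd d` is the set of `l₁ ≥ … ≥ l_d ≥ 0` with sum `d`, and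
`bj q l j` is the number of `i` with `lᵢ = j`, plus `q - d` if `j = 0`. -/
def Cdq (d q : ℕ) : ℝ :=
  (((q : ℝ) ^ d)⁻¹ * ∑ l ∈ Pd d, ((d.factorial : ℝ) / ∏ i, ((l i).factorial : ℝ)) ^ 2 *
    ((q.factorial : ℝ) / ∏ j ∈ range (d + 1), ((bj q l j).factorial : ℝ))) ^ (1 / (2 * d) : ℝ)

variable {p : ℕ} [Fact p.Prime] {F : Type*} [Field F] [Fintype F] [Algebra (ZMod p) F]

/-- the character as an additive character -/
def psi (p : ℕ) [Fact p.Prime] (F : Type*) [Field F] [Algebra (ZMod p) F] : AddChar F ℂ :=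
  (ZMod.stdAddChar (N := p)).compAddMonoidHom (Algebra.trace (ZMod p) F).toAddMonoidHom

omit [Fintype F] in
lemma ee_eq (y : F) : ee p y = psi p F y := by
  unfold ee psi
  rw [AddChar.compAddMonoidHom_apply]
  have h := ZMod.stdAddChar_coe (N := p) ((Algebra.trace (ZMod p) F y).val : ℤ)
  have h2 : (((Algebra.trace (ZMod p) F y).val : ℤ) : ZMod p) = Algebra.trace (ZMod p) F y := by
    simp
  rw [h2] at h
  have h3 : ZMod.stdAddChar ((Algebra.trace (ZMod p) F).toAddMonoidHom y) =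
      ZMod.stdAddChar (Algebra.trace (ZMod p) F y) := rfl
  rw [h3, h]
  push_cast
  rfl

lemma psi_ne : psi p F ≠ 1 := by
  obtain ⟨y, hy⟩ := Algebra.trace_surjective (ZMod p) F 1
  rw [AddChar.ne_one_iff]
  refine ⟨y, ?_⟩
  intro h
  have h1 : ZMod.stdAddChar (Algebra.trace (ZMod p) F y) = (1 : ℂ) := h
  rw [hy, ← AddChar.map_zero_eq_one (ZMod.stdAddChar (N := p))] at h1
  have h2 := ZMod.injective_stdAddChar h1
  exact one_ne_zero h2

lemma card_pos' : (0 : ℝ) < Fintype.card F := by exact_mod_cast Fintype.card_pos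

lemma p_le_card : p ≤ Fintype.card F := by
  have hinj : Function.Injective (algebraMap (ZMod p) F) := (algebraMap (ZMod p) F).injective
  have := Fintype.card_le_of_injective _ hinj
  rwa [ZMod.card] at this

omit [Fintype F] in
lemma cast_ne {d : ℕ} (hd : d < p) : ∀ k : ℕ, 1 ≤ k → k ≤ d → (k : F) ≠ 0 := by
  intro k hk1 hk2 h
  have h1 : (algebraMap (ZMod p) F) (k : ZMod p) = 0 := by rw [map_natCast]; exact h
  have h2 : (k : ZMod p) = 0 := (algebraMap (ZMod p) F).injective (by rw [h1, map_zero])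
  rw [ZMod.natCast_eq_zero_iff] at h2
  have := Nat.le_of_dvd (by omega) h2
  omega

omit [Fintype F] in
lemma map_sum_eq {A : Type*} [DecidableEq A] (ψ : AddChar F ℂ) (s : Finset A) (g : A → F) :
    ψ (∑ t ∈ s, g t) = ∏ t ∈ s, ψ (g t) := by
  induction s using Finset.induction_on with
  | empty => simp
  | insert a s ha ih => rw [Finset.sum_insert ha, Finset.prod_insert ha, AddChar.map_add_eq_mul, ih]

/-- the power sum of the extension -/
lemma sum_pow_ext [DecidableEq F] {d : ℕ} (hd : d < p) (f : F → ℂ) :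
    ∑ x : Fin d → F, ‖extn p f x‖ ^ (2 * d) =
      ((Fintype.card F : ℝ) ^ d)⁻¹ * ((d.factorial : ℝ) ^ 2 * Phi d (fun t => ‖f t‖ ^ 2)) := by
  set q : ℝ := ((Fintype.card F : ℕ) : ℝ) with hq
  have hq0 : 0 < q := card_pos' (F := F)
  have h1 : ∀ x : Fin d → F, ‖extn p f x‖ ^ (2 * d) = (q ^ (2 * d))⁻¹ *
      ‖∑ m ∈ piAntidiag (univ : Finset F) d,
        ((Nat.multinomial univ m : ℂ) * ∏ t, f t ^ m t) * psi p F (∑ i, x i * vv d m i)‖ ^ 2 := by
    intro x
    have e1 : (∑ t, f t * ee p (∑ i : Fin d, x i * t ^ ((i : ℕ) + 1))) ^ d =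
        ∑ m ∈ piAntidiag (univ : Finset F) d,
        ((Nat.multinomial univ m : ℂ) * ∏ t, f t ^ m t) * psi p F (∑ i, x i * vv d m i) := by
      rw [Finset.sum_pow_eq_sum_piAntidiag]
      refine Finset.sum_congr rfl fun m _ => ?_
      rw [mul_assoc]
      congr 1
      simp_rw [mul_pow]
      rw [Finset.prod_mul_distrib]
      congr 1
      have e2 : (∑ i, x i * vv d m i) = ∑ t, m t • ∑ i : Fin d, x i * t ^ ((i : ℕ) + 1) := by
        unfold vv
        simp_rw [Finset.mul_sum, nsmul_eq_mul, Finset.mul_sum]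
        rw [Finset.sum_comm]
        refine Finset.sum_congr rfl fun t _ => Finset.sum_congr rfl fun i _ => ?_
        ring
      rw [e2, map_sum_eq]
      refine Finset.prod_congr rfl fun t _ => ?_
      rw [AddChar.map_nsmul_eq_pow, ee_eq]
    rw [← e1, norm_pow, ← pow_mul, mul_comm d 2]
    unfold extn
    rw [norm_mul, mul_pow, norm_div, norm_one, Complex.norm_natCast, one_div, inv_pow]
  simp_rw [h1]
  rw [← Finset.mul_sum, parseval (psi p F) psi_ne (piAntidiag (univ : Finset F) d)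
    (fun m => ((Nat.multinomial univ m : ℂ) * ∏ t, f t ^ m t)) (fun m => vv d m) (by
      intro m hm m' hm' h
      rw [mem_piAntidiag] at hm hm'
      exact vv_inj (cast_ne hd) hm.1 hm'.1 h)]
  have h2 : ∑ m ∈ piAntidiag (univ : Finset F) d, ‖(Nat.multinomial univ m : ℂ) * ∏ t, f t ^ m t‖ ^ 2 =
      (d.factorial : ℝ) ^ 2 * Phi d (fun t => ‖f t‖ ^ 2) := by
    unfold Phi
    rw [Finset.mul_sum]
    refine Finset.sum_congr rfl fun m hm => ?_
    rw [mem_piAntidiag] at hm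
    rw [norm_mul, mul_pow, Complex.norm_natCast, norm_prod, ← Finset.prod_pow,
      Finset.prod_div_distrib]
    have e3 : (Nat.multinomial univ m : ℝ) = d.factorial / ∏ t, ((m t).factorial : ℝ) := by
      have h3 := Nat.multinomial_spec (univ : Finset F) m
      rw [hm.1] at h3
      have h4 : (∏ t, ((m t).factorial : ℝ)) ≠ 0 :=
        Finset.prod_ne_zero_iff.2 fun t _ => by exact_mod_cast (m t).factorial_ne_zero
      rw [eq_div_iff h4, mul_comm]
      exact_mod_cast h3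
    rw [e3, div_pow, ← Finset.prod_pow]
    have e4 : ∏ t, ‖f t ^ m t‖ ^ 2 = ∏ t, (‖f t‖ ^ 2) ^ m t := by
      refine Finset.prod_congr rfl fun t _ => ?_
      rw [norm_pow, ← pow_mul, ← pow_mul, mul_comm]
    rw [e4]
    ring
  rw [h2, ← mul_assoc]
  congr 1
  rw [two_mul, pow_add]
  field_simp
  rw [hq]

/-- the constant -/
lemma Cdq_eq {d q : ℕ} (hq : d ≤ q) : Cdq d q =
    (((q : ℝ) ^ d)⁻¹ * ((d.factorial : ℝ) ^ 2 * Phi d (fun _ : Fin q => (1 : ℝ)))) ^
      (1 / (2 * d) : ℝ) := by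
  unfold Cdq
  congr 2
  rw [count hq, Finset.mul_sum]
  refine Finset.sum_congr rfl fun l _ => ?_
  rw [← mul_assoc]
  congr 1
  rw [div_pow, ← Finset.prod_pow, div_eq_mul_inv]
  congr 1
  rw [← Finset.prod_inv_distrib]
  refine Finset.prod_congr rfl fun i _ => ?_
  rw [one_div]

lemma Phi_card {A : Type*} [Fintype A] [DecidableEq A] {d : ℕ} : Phi d (fun _ : A => (1 : ℝ)) =
    Phi d (fun _ : Fin (Fintype.card A) => (1 : ℝ)) := by
  rw [Phi_eq, Phi_eq]
  simp

/-- **Main theorem.** For all `d ≥ 2`, all primes `p > d` and all finite fields `F` of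
characteristic `p`: (a) the inequality `‖(f σ)^∨‖_{L^{2d}} ≤ C_{d,q} ‖f‖_{L²(σ)}` holds for all `f`,
(b) it has a maximizer, and (c) a nonzero `f` is a maximizer iff `|f|` is constant. -/
theorem result (d : ℕ) (hd : 2 ≤ d) (p : ℕ) [Fact p.Prime] (hp : d < p) (F : Type*) [Field F]
    [Fintype F] [Algebra (ZMod p) F] :
    (∀ f : F → ℂ, normExt p d f ≤ Cdq d (Fintype.card F) * normL2 f) ∧
    (∃ f : F → ℂ, f ≠ 0 ∧ normExt p d f = Cdq d (Fintype.card F) * normL2 f) ∧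
    (∀ f : F → ℂ, f ≠ 0 → (normExt p d f = Cdq d (Fintype.card F) * normL2 f ↔
      ∀ s t, ‖f s‖ = ‖f t‖)) := by
  classical
  set q : ℝ := ((Fintype.card F : ℕ) : ℝ) with hq
  have hq0 : 0 < q := card_pos' (F := F)
  have hdq : d ≤ Fintype.card F := hp.le.trans p_le_card
  have hd0 : (0 : ℝ) < 1 / (2 * d) := by positivity
  set Y : ℝ := (q ^ d)⁻¹ * ((d.factorial : ℝ) ^ 2 * Phi d (fun _ : F => (1 : ℝ))) with hY
  have hPnn : ∀ a : F → ℝ, (∀ t, 0 ≤ a t) → 0 ≤ Phi d a := by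
    intro a ha
    unfold Phi
    refine Finset.sum_nonneg fun m _ => Finset.prod_nonneg fun t _ => ?_
    have := ha t
    positivity
  have hYnn : 0 ≤ Y := by
    have := hPnn (fun _ => 1) (fun _ => zero_le_one)
    positivity
  have hC : Cdq d (Fintype.card F) = Y ^ (1 / (2 * d) : ℝ) := by
    rw [Cdq_eq hdq, hY, Phi_card (A := F), hq]
  have hX : ∀ f : F → ℂ, normExt p d f =
      ((q ^ d)⁻¹ * ((d.factorial : ℝ) ^ 2 * Phi d (fun t => ‖f t‖ ^ 2))) ^ (1 / (2 * d) : ℝ) := by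
    intro f
    unfold normExt
    rw [sum_pow_ext hp f]
  have hR : ∀ f : F → ℂ, Cdq d (Fintype.card F) * normL2 f =
      (Y * ((∑ t, ‖f t‖ ^ 2) / q) ^ d) ^ (1 / (2 * d) : ℝ) := by
    intro f
    have h0 : 0 ≤ (∑ t, ‖f t‖ ^ 2) / q := by positivity
    rw [hC, Real.mul_rpow hYnn (by positivity)]
    congr 1
    unfold normL2
    rw [← Real.rpow_natCast, ← Real.rpow_mul h0]
    have e1 : (d : ℝ) * (1 / (2 * d)) = 1 / 2 := by
      have : (d : ℝ) ≠ 0 := by positivity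
      field_simp
    rw [e1, one_div_mul_eq_div]
  have hcf : (0 : ℝ) < (q ^ d)⁻¹ * (d.factorial : ℝ) ^ 2 := by
    have : (0 : ℝ) < d.factorial := by exact_mod_cast d.factorial_pos
    positivity
  have hXe : ∀ f : F → ℂ, (q ^ d)⁻¹ * ((d.factorial : ℝ) ^ 2 * Phi d (fun t => ‖f t‖ ^ 2)) =
      ((q ^ d)⁻¹ * (d.factorial : ℝ) ^ 2) * Phi d (fun t => ‖f t‖ ^ 2) := fun f => by ring
  have hYe : ∀ f : F → ℂ, Y * ((∑ t, ‖f t‖ ^ 2) / q) ^ d = ((q ^ d)⁻¹ * (d.factorial : ℝ) ^ 2) *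
      (((∑ t, ‖f t‖ ^ 2) / q) ^ d * Phi d (fun _ : F => (1 : ℝ))) := fun f => by rw [hY]; ring
  have hiff : ∀ f : F → ℂ, (normExt p d f = Cdq d (Fintype.card F) * normL2 f ↔
      Phi d (fun t => ‖f t‖ ^ 2) = ((∑ t, ‖f t‖ ^ 2) / q) ^ d * Phi d (fun _ : F => (1 : ℝ))) := by
    intro f
    have h1 : 0 ≤ Phi d (fun t => ‖f t‖ ^ 2) := hPnn _ fun t => by positivity
    have h2 : 0 ≤ Phi d (fun _ : F => (1 : ℝ)) := hPnn _ fun _ => zero_le_one
    rw [hX, hR, hXe, hYe]
    rw [Real.rpow_left_inj (by positivity) (by positivity) hd0.ne', mul_right_inj' hcf.ne']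
  have hconst : ∀ f : F → ℂ, (∀ s t, ‖f s‖ = ‖f t‖) →
      Phi d (fun t => ‖f t‖ ^ 2) = ((∑ t, ‖f t‖ ^ 2) / q) ^ d * Phi d (fun _ : F => (1 : ℝ)) := by
    intro f hf
    have h1 : (fun t => ‖f t‖ ^ 2) = fun _ => ‖f 0‖ ^ 2 := by
      funext t; rw [hf t 0]
    rw [h1, Phi_const, Finset.sum_const, card_univ, nsmul_eq_mul, ← hq]
    congr 2
    field_simp
  refine ⟨?_, ?_, ?_⟩
  · intro f
    have h1 : 0 ≤ Phi d (fun t => ‖f t‖ ^ 2) := hPnn _ fun t => by positivity
    rw [hX, hR, hXe, hYe]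
    refine Real.rpow_le_rpow (by positivity) ?_ hd0.le
    refine mul_le_mul_of_nonneg_left ?_ hcf.le
    exact (Phi_le d hd (fun t => ‖f t‖ ^ 2) fun t => by positivity).1
  · refine ⟨fun _ => 1, ?_, ?_⟩
    · intro h
      have := congrFun h 0
      simp at this
    · rw [hiff]
      exact hconst _ fun _ _ => rfl
  · intro f _
    rw [hiff]
    constructor
    · intro h s t
      have h1 := (Phi_le d hd (fun t => ‖f t‖ ^ 2) fun t => by positivity).2 h s t
      exact (pow_left_inj₀ (norm_nonneg _) (norm_nonneg _) (by norm_num)).1 h1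
    · exact hconst f

end

end Pool.Agent.Results.MP_110370_an.SharpMomentCurve
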